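import Pool.Agent.Y387.RU.Trans
import Pool.Agent.W864.SymPrimes

set_option autoImplicit false

/-! Symmetries of a maximal equiangular tight frame: commutation relations. -/

namespace Pool.Agent.X159.Nil

open Pool.Agent.Y387.SF

variable {d : ℕ}

/-- the space -/
abbrev VV (d : ℕ) : Type := EuclideanSpace ℂ (Fin d)

/-- scaling by a number of modulus one -/
noncomputable def sc (d : ℕ) (u : ℂ) (hu : ‖u‖ = 1) : VV d ≃ₗᵢ[ℂ] VV d where
  toLinearEquiv := LinearEquiv.smulOfNeZero ℂ (VV d) u (by rintro rfl; simp at hu)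
  norm_map' v := by
    change ‖u • v‖ = ‖v‖
    rw [norm_smul, hu, one_mul]

theorem sc_apply (u : ℂ) (hu : ‖u‖ = 1) (v : VV d) : sc d u hu v = u • v := rfl

variable {x : Fin (d ^ 2) → VV d}

theorem ind_sc {u : ℂ} (hu : ‖u‖ = 1) {A : VV d ≃ₗᵢ[ℂ] VV d} {α : Equiv.Perm (Fin (d ^ 2))}
    (hA : Ind x A α) : Ind x (sc d u hu * A) α := by
  intro k
  obtain ⟨c, hc⟩ := hA k
  refine ⟨u * c, ?_⟩
  change sc d u hu (A (x k)) = _
  rw [hc, sc_apply, smul_smul]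

/-- the relation between the lifts if `α β = γ β α` -/
theorem comm_rel (h : IsEtf d x) (hd : 1 ≤ d) {A B C : VV d ≃ₗᵢ[ℂ] VV d}
    {α β γ : Equiv.Perm (Fin (d ^ 2))} (hA : Ind x A α) (hB : Ind x B β) (hC : Ind x C γ)
    (hr : α * β = γ * (β * α)) : ∃ ζ : ℂ, ‖ζ‖ = 1 ∧ ∀ v, A (B v) = ζ • C (B (A v)) := by
  have h1 := (hA.mul hB).mul ((hC.mul (hB.mul hA)).inv h)
  rw [hr, mul_inv_cancel] at h1
  obtain ⟨ζ, hζ1, hζ⟩ := fix_all h hd (Fintype.card_fin _) (by simp) h1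
  refine ⟨ζ, hζ1, fun v => ?_⟩
  have h2 := hζ ((C * (B * A)) v)
  change (A * B) ((C * (B * A))⁻¹ ((C * (B * A)) v)) = ζ • C (B (A v)) at h2
  have h3 : (C * (B * A))⁻¹ ((C * (B * A)) v) = v := (C * (B * A)).symm_apply_apply v
  rw [h3] at h2
  exact h2

theorem exists_ne (h : IsEtf d x) (hd : 1 ≤ d) : ∃ v : VV d, v ≠ 0 := by
  refine ⟨x ⟨0, by positivity⟩, fun h0 => ?_⟩
  have := h.nrm ⟨0, by positivity⟩
  rw [h0, norm_zero] at this
  exact zero_ne_one this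

/-- two lifts differ by a scalar -/
theorem lift_unique (h : IsEtf d x) (hd : 1 ≤ d) {A B : VV d ≃ₗᵢ[ℂ] VV d}
    {α : Equiv.Perm (Fin (d ^ 2))} (hA : Ind x A α) (hB : Ind x B α) :
    ∃ c : ℂ, ‖c‖ = 1 ∧ ∀ v, A v = c • B v := by
  have h1 := hA.mul (hB.inv h)
  rw [mul_inv_cancel] at h1
  obtain ⟨c, hc1, hc⟩ := fix_all h hd (Fintype.card_fin _) (by simp) h1
  refine ⟨c, hc1, fun v => ?_⟩
  have h2 := hc (B v)
  change A (B⁻¹ (B v)) = c • B v at h2
  have h3 : B⁻¹ (B v) = v := B.symm_apply_apply v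
  rwa [h3] at h2

/-- a scalar lift belongs to the identity -/
theorem eq_one_of_scalar (h : IsEtf d x) (hd : 1 ≤ d) {A : VV d ≃ₗᵢ[ℂ] VV d}
    {α : Equiv.Perm (Fin (d ^ 2))} (hA : Ind x A α) {c : ℂ} (hc : ∀ v, A v = c • v) :
    α = 1 := by
  ext k
  obtain ⟨c', hc'⟩ := hA k
  have h2 : A (x k) = c • x k := hc (x k)
  have hc'0 : c' ≠ 0 := by
    rintro rfl
    have := ind_norm h hc'
    simp at this
  have h3 : x (α k) = (c'⁻¹ * c) • x k := by
    rw [mul_smul, ← h2, hc', smul_smul, inv_mul_cancel₀ hc'0, one_smul]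
  rw [Equiv.Perm.one_apply]
  exact congrArg Fin.val (h.line hd h3)

/-- if the lifts agree up to a scalar, the permutations agree -/
theorem eq_of_scalar (h : IsEtf d x) (hd : 1 ≤ d) {A B : VV d ≃ₗᵢ[ℂ] VV d}
    {α β : Equiv.Perm (Fin (d ^ 2))} (hA : Ind x A α) (hB : Ind x B β) {c : ℂ}
    (hc : ∀ v, A v = c • B v) : α = β := by
  have h1 := eq_one_of_scalar h hd (hA.mul (hB.inv h)) (c := c) (by
    intro v
    change A (B⁻¹ v) = c • v
    rw [hc]
    have h3 : B (B⁻¹ v) = v := B.apply_symm_apply v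
    rw [h3])
  exact mul_inv_eq_one.1 h1

/-- the linear map -/
noncomputable def lm (U : VV d ≃ₗᵢ[ℂ] VV d) : Module.End ℂ (VV d) :=
  U.toLinearEquiv.toLinearMap

@[simp] theorem lm_apply (U : VV d ≃ₗᵢ[ℂ] VV d) (v : VV d) : lm U v = U v := rfl

theorem lm_mul (U W : VV d ≃ₗᵢ[ℂ] VV d) : lm (U * W) = lm U * lm W := rfl

theorem lm_one : lm (1 : VV d ≃ₗᵢ[ℂ] VV d) = 1 := rfl

theorem lm_pow (U : VV d ≃ₗᵢ[ℂ] VV d) (n : ℕ) : lm (U ^ n) = lm U ^ n := by
  induction n with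
  | zero => rw [pow_zero, pow_zero, lm_one]
  | succ n ih => rw [pow_succ, pow_succ, lm_mul, ih]

theorem lm_inv_mul (U : VV d ≃ₗᵢ[ℂ] VV d) : lm U⁻¹ * lm U = 1 := by
  rw [← lm_mul, inv_mul_cancel, lm_one]

theorem lm_mul_inv (U : VV d ≃ₗᵢ[ℂ] VV d) : lm U * lm U⁻¹ = 1 := by
  rw [← lm_mul, mul_inv_cancel, lm_one]

/-- the trace formula -/
theorem trace_fix (h : IsEtf d x) (hd : 1 ≤ d) {U : VV d ≃ₗᵢ[ℂ] VV d}
    {π : Equiv.Perm (Fin (d ^ 2))} (hU : Ind x U π) :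
    LinearMap.trace ℂ (VV d) (lm U) * star (LinearMap.trace ℂ (VV d) (lm U)) =
      (Pool.Agent.W864.Sym.fix π : ℂ) := by
  obtain ⟨M, hM, hMv⟩ := Pool.Agent.H109R2.SymGroup.unitary_matrix U
  have h1 : Pool.Agent.W864.Sym.Ind x M π := by
    refine ⟨hM, fun i => ?_⟩
    obtain ⟨c, hc⟩ := hU i
    exact ⟨c, by rw [hMv, hc]; rfl⟩
  have h2 : LinearMap.trace ℂ (VV d) (lm U) = Matrix.trace M := by
    rw [LinearMap.trace_eq_sum_inner _ (EuclideanSpace.basisFun (Fin d) ℂ), Matrix.trace]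
    refine Finset.sum_congr rfl fun i _ => ?_
    rw [lm_apply, EuclideanSpace.basisFun_apply, EuclideanSpace.inner_single_left, ← hMv]
    simp
  rw [h2]
  exact Pool.Agent.W864.Sym.trace_sq hd ⟨h.nrm, h.ang⟩ h1

/-- the bound for symmetries of prime order -/
theorem prime_bound (h : IsEtf d x) (hd : 1 ≤ d) {U : VV d ≃ₗᵢ[ℂ] VV d}
    {π : Equiv.Perm (Fin (d ^ 2))} (hU : Ind x U π) {p : ℕ} (hp : p.Prime) (hπp : π ^ p = 1)
    (hπ : π ≠ 1) : ((p : ℝ) - 1) * Pool.Agent.W864.Sym.fix π ≤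
      p * Real.sqrt (Pool.Agent.W864.Sym.fix π) + d := by
  obtain ⟨M, hM, hMv⟩ := Pool.Agent.H109R2.SymGroup.unitary_matrix U
  have h1 : Pool.Agent.W864.Sym.Ind x M π := by
    refine ⟨hM, fun i => ?_⟩
    obtain ⟨c, hc⟩ := hU i
    exact ⟨c, by rw [hMv, hc]; rfl⟩
  exact Pool.Agent.W864.Sym.prime_bound hd ⟨h.nrm, h.ang⟩ hp hπp hπ h1

/-- operators commuting up to a scalar on a space: the scalar is a root of unity -/
theorem det_root {W : Type*} [AddCommGroup W] [Module ℂ W] [FiniteDimensional ℂ W]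
    (A B : Module.End ℂ W) (hA : Function.Injective A) (hB : Function.Injective B) {ζ : ℂ}
    (hr : ∀ v, A (B v) = ζ • B (A v)) : ζ ^ Module.finrank ℂ W = 1 := by
  have hAd : LinearMap.det A ≠ 0 := by
    intro h0
    have h1 := (LinearMap.isUnit_iff_ker_eq_bot A).2 (LinearMap.ker_eq_bot.2 hA)
    have h2 := h1.map (LinearMap.det : Module.End ℂ W →* ℂ)
    rw [h0] at h2
    exact not_isUnit_zero h2
  have hBd : LinearMap.det B ≠ 0 := by
    intro h0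
    have h1 := (LinearMap.isUnit_iff_ker_eq_bot B).2 (LinearMap.ker_eq_bot.2 hB)
    have h2 := h1.map (LinearMap.det : Module.End ℂ W →* ℂ)
    rw [h0] at h2
    exact not_isUnit_zero h2
  have h1 : A * B = ζ • (B * A) := LinearMap.ext hr
  have h2 := congrArg LinearMap.det h1
  rw [map_mul, LinearMap.det_smul, map_mul] at h2
  have h3 : (ζ ^ Module.finrank ℂ W - 1) * (LinearMap.det A * LinearMap.det B) = 0 := by
    linear_combination -h2
  rcases mul_eq_zero.1 h3 with h4 | h4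
  · exact sub_eq_zero.1 h4
  · exact absurd h4 (mul_ne_zero hAd hBd)

end Pool.Agent.X159.Nil
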