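import Pool.Agent.X159.Nil.Base

set_option autoImplicit false

/-! The character attached to a central symmetry. -/

namespace Pool.Agent.X159.Nil

open Pool.Agent.Y387.SF

variable {d : ℕ} {x : Fin (d ^ 2) → VV d}

/-- all elements of the group are symmetries -/
def SymG (x : Fin (d ^ 2) → VV d) (G : Subgroup (Equiv.Perm (Fin (d ^ 2)))) : Prop :=
  ∀ π ∈ G, ∃ U : VV d ≃ₗᵢ[ℂ] VV d, Ind x U π

/-- `χ` is the commutation character of `A` -/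
def IsChi {G : Subgroup (Equiv.Perm (Fin (d ^ 2)))} (x : Fin (d ^ 2) → VV d)
    (A : VV d ≃ₗᵢ[ℂ] VV d) (χ : G →* ℂ) : Prop :=
  ∀ (y : G) (B : VV d ≃ₗᵢ[ℂ] VV d), Ind x B (y : Equiv.Perm (Fin (d ^ 2))) →
    ∀ v, A (B v) = χ y • B (A v)

theorem exists_chi (h : IsEtf d x) (hd : 1 ≤ d) {G : Subgroup (Equiv.Perm (Fin (d ^ 2)))}
    (hG : SymG x G) {z : Equiv.Perm (Fin (d ^ 2))} {A : VV d ≃ₗᵢ[ℂ] VV d} (hA : Ind x A z)
    (hz : ∀ y ∈ G, z * y = y * z) : ∃ χ : G →* ℂ, IsChi x A χ := by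
  classical
  choose W hW using fun y : G => hG y y.2
  have h1 : ∀ y : G, ∃ ζ : ℂ, ‖ζ‖ = 1 ∧ ∀ v, A (W y v) = ζ • W y (A v) := by
    intro y
    have := comm_rel h hd hA (hW y) Ind.one (by rw [one_mul, hz y y.2] :
      z * (y : Equiv.Perm (Fin (d ^ 2))) = 1 * (y * z))
    exact this
  choose ζ hζ1 hζ using h1
  have key : ∀ (y : G) (B : VV d ≃ₗᵢ[ℂ] VV d), Ind x B (y : Equiv.Perm (Fin (d ^ 2))) →
      ∀ v, A (B v) = ζ y • B (A v) := by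
    intro y B hB v
    obtain ⟨c, hc1, hc⟩ := lift_unique h hd hB (hW y)
    rw [hc, hc, map_smul, hζ, smul_comm]
  obtain ⟨v₀, hv₀⟩ := exists_ne h hd
  have uniq : ∀ (B : VV d ≃ₗᵢ[ℂ] VV d) (a b : ℂ), (∀ v, A (B v) = a • B (A v)) →
      (∀ v, A (B v) = b • B (A v)) → a = b := by
    intro B a b ha hb
    have h2 : (a - b) • B (A v₀) = 0 := by rw [sub_smul, ← ha, ← hb, sub_self]
    rcases smul_eq_zero.1 h2 with h3 | h3
    · exact sub_eq_zero.1 h3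
    · exfalso
      apply hv₀
      have h4 : A v₀ = 0 := B.map_eq_zero_iff.1 h3
      exact A.map_eq_zero_iff.1 h4
  refine ⟨⟨⟨ζ, ?_⟩, ?_⟩, key⟩
  · refine uniq 1 _ _ (key 1 1 (by simpa using (Ind.one : Ind x 1 1))) ?_
    intro v
    rw [one_smul]
    rfl
  · intro y y'
    refine uniq (W y * W y') _ _ (key (y * y') _ (by simpa using (hW y).mul (hW y'))) ?_
    intro v
    change A (W y (W y' v)) = (ζ y * ζ y') • W y (W y' (A v))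
    rw [hζ, hζ, map_smul, smul_smul]

theorem chi_apply_ne (h : IsEtf d x) (hd : 1 ≤ d) {A B : VV d ≃ₗᵢ[ℂ] VV d} {ζ : ℂ}
    (hr : ∀ v, A (B v) = ζ • B (A v)) : ζ ≠ 0 := by
  rintro rfl
  obtain ⟨v₀, hv₀⟩ := exists_ne h hd
  have h1 := hr v₀
  rw [zero_smul] at h1
  exact hv₀ (B.map_eq_zero_iff.1 (A.map_eq_zero_iff.1 h1))

/-- powers of the commutation relation -/
theorem rel_pow {A B : VV d ≃ₗᵢ[ℂ] VV d} {ζ : ℂ} (hr : ∀ v, A (B v) = ζ • B (A v)) (n : ℕ) :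
    ∀ v, (A ^ n) (B v) = ζ ^ n • B ((A ^ n) v) := by
  induction n with
  | zero => intro v; simp
  | succ n ih =>
    intro v
    rw [pow_succ]
    change (A ^ n) (A (B v)) = ζ ^ (n + 1) • B ((A ^ n) (A v))
    rw [hr, map_smul, ih, smul_smul, pow_succ, mul_comm]

theorem scalar_of_pow (h : IsEtf d x) (hd : 1 ≤ d) {A : VV d ≃ₗᵢ[ℂ] VV d}
    {z : Equiv.Perm (Fin (d ^ 2))} (hA : Ind x A z) {n : ℕ} (hz : z ^ n = 1) :
    ∃ c : ℂ, ‖c‖ = 1 ∧ ∀ v, (A ^ n) v = c • v := by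
  have h1 : Ind x (A ^ n) 1 := by
    rw [← hz]
    exact Pool.Agent.Y387.RU.ind_pow hA n
  exact fix_all h hd (Fintype.card_fin _) (by simp) h1

theorem zeta_pow (h : IsEtf d x) (hd : 1 ≤ d) {A B : VV d ≃ₗᵢ[ℂ] VV d} {ζ : ℂ}
    (hr : ∀ v, A (B v) = ζ • B (A v)) {n : ℕ} {c : ℂ} (hc : ∀ v, (A ^ n) v = c • v)
    (hc0 : c ≠ 0) : ζ ^ n = 1 := by
  obtain ⟨v₀, hv₀⟩ := exists_ne h hd
  have h1 := rel_pow hr n v₀
  rw [hc, hc, map_smul, smul_smul] at h1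
  have h2 : (c * (1 - ζ ^ n)) • B v₀ = 0 := by
    rw [mul_sub, mul_one, sub_smul, h1, mul_comm, sub_self]
  rcases smul_eq_zero.1 h2 with h3 | h3
  · rcases mul_eq_zero.1 h3 with h4 | h4
    · exact absurd h4 hc0
    · exact (sub_eq_zero.1 h4).symm
  · exact absurd (B.map_eq_zero_iff.1 h3) hv₀

theorem chi_pow (h : IsEtf d x) (hd : 1 ≤ d) {G : Subgroup (Equiv.Perm (Fin (d ^ 2)))}
    (hG : SymG x G) {z : Equiv.Perm (Fin (d ^ 2))} {A : VV d ≃ₗᵢ[ℂ] VV d} (hA : Ind x A z)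
    {χ : G →* ℂ} (hχ : IsChi x A χ) {n : ℕ} (hz : z ^ n = 1) (y : G) : χ y ^ n = 1 := by
  obtain ⟨B, hB⟩ := hG y y.2
  obtain ⟨c, hc1, hc⟩ := scalar_of_pow h hd hA hz
  refine zeta_pow h hd (hχ y B hB) hc ?_
  rintro rfl
  simp at hc1

theorem chi_det {G : Subgroup (Equiv.Perm (Fin (d ^ 2)))} (hG : SymG x G)
    {A : VV d ≃ₗᵢ[ℂ] VV d} {χ : G →* ℂ} (hχ : IsChi x A χ) (y : G) : χ y ^ d = 1 := by
  obtain ⟨B, hB⟩ := hG y y.2
  have h1 := det_root (lm A) (lm B) A.injective B.injective (hχ y B hB)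
  rwa [finrank_euclideanSpace, Fintype.card_fin] at h1

/-- a nontrivial central symmetry has a nontrivial character -/
theorem chi_nontrivial (h : IsEtf d x) (hd : 1 ≤ d) {G : Subgroup (Equiv.Perm (Fin (d ^ 2)))}
    (hG : SymG x G) (htr : ∀ i j, ∃ π ∈ G, π i = j) {z : Equiv.Perm (Fin (d ^ 2))}
    {A : VV d ≃ₗᵢ[ℂ] VV d} (hA : Ind x A z) (hz : z ≠ 1) {χ : G →* ℂ} (hχ : IsChi x A χ) :
    ∃ y : G, χ y ≠ 1 := by
  by_contra hcon
  push Not at hcon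
  apply hz
  have h1 : ∃ c : ℂ, ∀ v, (A.toLinearEquiv : VV d →ₗ[ℂ] VV d) v = c • v := by
    apply commutant h hd (Fintype.card_fin _) (by simp) _ ⟨0, by positivity⟩
    intro k
    obtain ⟨g, hg, hgk⟩ := htr ⟨0, by positivity⟩ k
    obtain ⟨B, hB⟩ := hG g hg
    obtain ⟨c, hc⟩ := hB ⟨0, by positivity⟩
    refine ⟨B, c, ?_, fun v => ?_⟩
    · rw [hc, hgk]
    · have h2 := hχ ⟨g, hg⟩ B hB v
      rw [hcon, one_smul] at h2
      exact h2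
  obtain ⟨c, hc⟩ := h1
  exact eq_one_of_scalar h hd hA hc

/-- normalisation -/
theorem normalise (h : IsEtf d x) (hd : 1 ≤ d) {A : VV d ≃ₗᵢ[ℂ] VV d}
    {z : Equiv.Perm (Fin (d ^ 2))} (hA : Ind x A z) {n : ℕ} (hn : 0 < n) (hz : z ^ n = 1) :
    ∃ A' : VV d ≃ₗᵢ[ℂ] VV d, Ind x A' z ∧ A' ^ n = 1 := by
  obtain ⟨c, hc1, hc⟩ := scalar_of_pow h hd hA hz
  obtain ⟨m, hm⟩ := IsAlgClosed.exists_pow_nat_eq c⁻¹ hn
  have hmn : ‖m‖ = 1 := by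
    have h1 : ‖m‖ ^ n = 1 := by rw [← norm_pow, hm, norm_inv, hc1, inv_one]
    exact (pow_eq_one_iff_of_nonneg (norm_nonneg _) hn.ne').1 h1
  refine ⟨sc d m hmn * A, ind_sc hmn hA, ?_⟩
  have h1 : ∀ k : ℕ, ∀ v, ((sc d m hmn * A) ^ k) v = m ^ k • (A ^ k) v := by
    intro k
    induction k with
    | zero => intro v; simp
    | succ k ih =>
      intro v
      rw [pow_succ, pow_succ A]
      change ((sc d m hmn * A) ^ k) (sc d m hmn (A v)) = m ^ (k + 1) • (A ^ k) (A v)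
      rw [sc_apply, map_smul, ih, smul_smul, pow_succ, mul_comm]
  ext1 v
  have hc0 : c ≠ 0 := by
    rintro rfl
    simp at hc1
  rw [h1, hc, smul_smul, hm, inv_mul_cancel₀ hc0, one_smul]
  rfl

end Pool.Agent.X159.Nil
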