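import Pool.Agent.X159.Nil.Eig

set_option autoImplicit false

/-! The dimension argument. -/

namespace Pool.Agent.X159.Nil

open Pool.Agent.Y387.SF

variable {d : ℕ} {x : Fin (d ^ 2) → VV d}

theorem rel_inv {A B : VV d ≃ₗᵢ[ℂ] VV d} {ζ : ℂ} (hζ : ζ ≠ 0)
    (hr : ∀ v, A (B v) = ζ • B (A v)) (v : VV d) : A⁻¹ (B v) = ζ⁻¹ • B (A⁻¹ v) := by
  have h1 : A (A⁻¹ v) = v := A.apply_symm_apply v
  have h2 : A⁻¹ (A (B (A⁻¹ v))) = B (A⁻¹ v) := A.symm_apply_apply _
  rw [hr, h1, map_smul] at h2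
  rw [← h2, smul_smul, inv_mul_cancel₀ hζ, one_smul]

/-- traces of quotients of powers -/
theorem tr_quot {p : ℕ} (hp : 0 < p) {A B : VV d ≃ₗᵢ[ℂ] VV d} {ζ : ℂ}
    (hζ : IsPrimitiveRoot ζ p) (hr : ∀ v, A (B v) = ζ • B (A v)) {l m : ℕ} (hl : l < p)
    (hm : m < p) : tr (lm A⁻¹ ^ m * lm A ^ l) = if l = m then (d : ℂ) else 0 := by
  have hζ0 : ζ ≠ 0 := hζ.ne_zero hp.ne'
  split_ifs with h
  · subst h
    have h1 : lm A⁻¹ ^ l * lm A ^ l = 1 := by
      rw [← lm_pow, ← lm_pow, ← lm_mul, inv_pow, inv_mul_cancel, lm_one]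
    rw [h1]
    exact tr_one
  · apply tr_zero_of (B := B) (θ := ζ ^ l * (ζ⁻¹) ^ m)
    · rw [mul_assoc, rel_end hr l, mul_smul_comm, ← mul_assoc, rel_end (rel_inv hζ0 hr) m,
        smul_mul_assoc, smul_smul, mul_assoc]
    · intro h1
      apply h
      apply hζ.pow_inj hl hm
      have h2 : (ζ⁻¹) ^ m * ζ ^ m = 1 := by rw [← mul_pow, inv_mul_cancel₀ hζ0, one_pow]
      calc ζ ^ l = ζ ^ l * ((ζ⁻¹) ^ m * ζ ^ m) := by rw [h2, mul_one]
        _ = (ζ ^ l * (ζ⁻¹) ^ m) * ζ ^ m := by rw [mul_assoc]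
        _ = ζ ^ m := by rw [h1, one_mul]

/-- **The dimension argument.** A unitary commuting with the lifts of the kernel of the character
of `A` is not orthogonal to all powers of `A`. -/
theorem exists_trace_ne (h : IsEtf d x) (hd : 1 ≤ d) {G : Subgroup (Equiv.Perm (Fin (d ^ 2)))}
    (hG : SymG x G) (htr : ∀ i j, ∃ π ∈ G, π i = j) {p : ℕ} (hp : 0 < p)
    {A H : VV d ≃ₗᵢ[ℂ] VV d} {χ : G →* ℂ} (hχ : IsChi x A χ) (hχp : ∀ y, χ y ^ p = 1) {g : G}
    (hg : IsPrimitiveRoot (χ g) p)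
    (hH : ∀ n : G, χ n = 1 → ∀ W : VV d ≃ₗᵢ[ℂ] VV d, Ind x W (n : Equiv.Perm (Fin (d ^ 2))) →
      ∀ v, W (H v) = H (W v)) :
    ∃ m < p, tr (lm A⁻¹ ^ m * lm H) ≠ 0 := by
  classical
  by_contra hcon
  push Not at hcon
  have hd2 : 0 < d ^ 2 := by positivity
  have : NeZero p := ⟨hp.ne'⟩
  set i₀ : Fin (d ^ 2) := ⟨0, hd2⟩ with hi₀
  obtain ⟨B, hB⟩ := hG g g.2
  have hr := hχ g B hB
  have hζ0 : χ g ≠ 0 := hg.ne_zero hp.ne'
  let X : Option (Fin p) → Module.End ℂ (VV d) := fun o => o.elim (lm H) (fun m => lm A ^ (m : ℕ))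
  let pt : Fin p → Fin (d ^ 2) := fun k => ((g ^ (k : ℕ) : G) : Equiv.Perm (Fin (d ^ 2))) i₀
  let v : Option (Fin p) → (Fin p → ℂ) := fun o k => inner ℂ (x (pt k)) (X o (x (pt k)))
  have hnl : ¬ LinearIndependent ℂ v := by
    intro hl
    have h1 := hl.fintype_card_le_finrank
    rw [Fintype.card_option, Fintype.card_fin, Module.finrank_fin_fun] at h1
    omega
  rw [Fintype.not_linearIndependent_iff] at hnl
  obtain ⟨c, hc, o₀, ho₀⟩ := hnl
  -- the operator
  set Y : Module.End ℂ (VV d) := ∑ o, c o • X o with hY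
  have hYpt : ∀ k, inner ℂ (x (pt k)) (Y (x (pt k))) = 0 := by
    intro k
    have h1 := congrFun hc k
    rw [Finset.sum_apply] at h1
    rw [hY, LinearMap.sum_apply, inner_sum]
    rw [Pi.zero_apply] at h1
    rw [← h1]
    refine Finset.sum_congr rfl fun o _ => ?_
    rw [LinearMap.smul_apply, inner_smul_right]
    rfl
  have hYW : ∀ n : G, χ n = 1 → ∀ W : VV d ≃ₗᵢ[ℂ] VV d,
      Ind x W (n : Equiv.Perm (Fin (d ^ 2))) → ∀ u, Y (W u) = W (Y u) := by
    intro n hn W hW u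
    have hAW : ∀ u, A (W u) = W (A u) := by
      intro u
      have := hχ n W hW u
      rwa [hn, one_smul] at this
    have hX : ∀ o u, X o (W u) = W (X o u) := by
      intro o u
      cases o with
      | none => exact (hH n hn W hW u).symm
      | some m =>
        change (lm A ^ (m : ℕ)) (W u) = W ((lm A ^ (m : ℕ)) u)
        rw [← lm_pow]
        have := rel_pow (A := A) (B := W) (ζ := 1) (fun v => by rw [one_smul, hAW]) m u
        rwa [one_pow, one_smul] at this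
    rw [hY, LinearMap.sum_apply, LinearMap.sum_apply, map_sum]
    refine Finset.sum_congr rfl fun o _ => ?_
    rw [LinearMap.smul_apply, LinearMap.smul_apply, hX, map_smul]
  have hY0 : Y = 0 := by
    apply h.op_zero hd (Fintype.card_fin _) (by simp)
    intro j
    obtain ⟨w, hw, hwj⟩ := htr i₀ j
    obtain ⟨k, hk, hk'⟩ := hg.eq_pow_of_pow_eq_one (hχp ⟨w, hw⟩)
    set n : G := ⟨w, hw⟩ * (g ^ k)⁻¹ with hn
    have hn1 : χ n = 1 := by
      have h1 : χ n * χ (g ^ k) = χ ⟨w, hw⟩ := by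
        rw [← map_mul, hn, inv_mul_cancel_right]
      rw [map_pow, hk'] at h1
      have h2 : χ ⟨w, hw⟩ ≠ 0 := by
        rw [← hk']
        exact pow_ne_zero _ hζ0
      have h3 : (χ n - 1) * χ ⟨w, hw⟩ = 0 := by linear_combination h1
      rcases mul_eq_zero.1 h3 with h4 | h4
      · exact sub_eq_zero.1 h4
      · exact absurd h4 h2
    obtain ⟨W, hW⟩ := hG n n.2
    obtain ⟨c', hc'⟩ := hW (pt ⟨k, hk⟩)
    have hpt : (n : Equiv.Perm (Fin (d ^ 2))) (pt ⟨k, hk⟩) = j := by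
      rw [← hwj]
      change ((n * g ^ k : G) : Equiv.Perm (Fin (d ^ 2))) i₀ = w i₀
      rw [hn, inv_mul_cancel_right]
    rw [hpt] at hc'
    have h1 := hYpt ⟨k, hk⟩
    rw [← W.inner_map_map, ← hYW n hn1 W hW, hc', map_smul, inner_smul_left,
      inner_smul_right] at h1
    have hcn := ind_norm h hc'
    have hc0 : c' ≠ 0 := by
      rintro rfl
      simp at hcn
    rcases mul_eq_zero.1 h1 with h2 | h2
    · exact absurd ((map_eq_zero _).1 h2) hc0
    · rcases mul_eq_zero.1 h2 with h3 | h3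
      · exact absurd h3 hc0
      · exact h3
  -- the coefficients vanish
  have hcm : ∀ m : Fin p, c (some m) = 0 := by
    intro m
    have h1 : tr (lm A⁻¹ ^ (m : ℕ) * Y) = 0 := by
      rw [hY0, mul_zero]
      exact map_zero _
    rw [hY, Fintype.sum_option, mul_add, Finset.mul_sum] at h1
    change LinearMap.trace ℂ (VV d) _ = 0 at h1
    rw [map_add, map_sum, mul_smul_comm, map_smul] at h1
    have h2 : LinearMap.trace ℂ (VV d) (lm A⁻¹ ^ (m : ℕ) * X none) = 0 := hcon m m.2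
    rw [h2, smul_zero, zero_add, Finset.sum_eq_single m] at h1
    · rw [mul_smul_comm, map_smul] at h1
      have h3 : LinearMap.trace ℂ (VV d) (lm A⁻¹ ^ (m : ℕ) * X (some m)) = d := by
        have := tr_quot hp hg hr m.2 m.2
        rwa [if_pos rfl] at this
      rw [h3, smul_eq_mul] at h1
      have hd0 : (d : ℂ) ≠ 0 := by
        have : d ≠ 0 := by omega
        exact_mod_cast this
      rcases mul_eq_zero.1 h1 with h4 | h4
      · exact h4
      · exact absurd h4 hd0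
    · intro l _ hl
      rw [mul_smul_comm, map_smul]
      have h3 : LinearMap.trace ℂ (VV d) (lm A⁻¹ ^ (m : ℕ) * X (some l)) = 0 := by
        have := tr_quot hp hg hr l.2 m.2
        rwa [if_neg (fun h => hl (Fin.ext h))] at this
      rw [h3, smul_zero]
    · intro h0
      exact absurd (Finset.mem_univ _) h0
  have hcn : c none = 0 := by
    rw [hY, Fintype.sum_option] at hY0
    simp only [hcm, zero_smul, Finset.sum_const_zero, add_zero] at hY0
    obtain ⟨v₀, hv₀⟩ := exists_ne h hd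
    have h1 : c none • H v₀ = 0 := LinearMap.congr_fun hY0 v₀
    rcases smul_eq_zero.1 h1 with h2 | h2
    · exact h2
    · exact absurd (H.map_eq_zero_iff.1 h2) hv₀
  cases o₀ with
  | none => exact ho₀ hcn
  | some m => exact ho₀ (hcm m)

end Pool.Agent.X159.Nil
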