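import Pool.Agent.X159.Nil.Chi

set_option autoImplicit false

/-! Eigenspaces of a symmetry of prime order and the key commutation lemma. -/

namespace Pool.Agent.X159.Nil

open Pool.Agent.Y387.SF

variable {d : ℕ} {x : Fin (d ^ 2) → VV d}

/-- the trace -/
noncomputable abbrev tr (X : Module.End ℂ (VV d)) : ℂ := LinearMap.trace ℂ (VV d) X

theorem tr_zero_of {X : Module.End ℂ (VV d)} {B : VV d ≃ₗᵢ[ℂ] VV d} {θ : ℂ}
    (hr : X * lm B = θ • (lm B * X)) (hθ : θ ≠ 1) : tr X = 0 := by
  have h1 : X = θ • (lm B * X * lm B⁻¹) := by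
    calc X = X * (lm B * lm B⁻¹) := by rw [lm_mul_inv, mul_one]
      _ = (X * lm B) * lm B⁻¹ := by rw [mul_assoc]
      _ = θ • (lm B * X * lm B⁻¹) := by rw [hr, smul_mul_assoc]
  have h2 : tr X = θ * tr X := by
    have h3 := congrArg (LinearMap.trace ℂ (VV d)) h1
    rw [map_smul, LinearMap.trace_mul_comm, ← mul_assoc, lm_inv_mul, one_mul, smul_eq_mul] at h3
    exact h3
  have h3 : (1 - θ) * tr X = 0 := by linear_combination h2
  rcases mul_eq_zero.1 h3 with h4 | h4
  · exact absurd (sub_eq_zero.1 h4).symm hθ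
  · exact h4

theorem rel_end {A B : VV d ≃ₗᵢ[ℂ] VV d} {ζ : ℂ} (hr : ∀ v, A (B v) = ζ • B (A v)) (n : ℕ) :
    lm A ^ n * lm B = ζ ^ n • (lm B * lm A ^ n) := by
  rw [← lm_pow]
  exact LinearMap.ext (rel_pow hr n)

theorem tr_one : tr (1 : Module.End ℂ (VV d)) = d := by
  have := LinearMap.trace_one ℂ (VV d)
  rw [finrank_euclideanSpace, Fintype.card_fin] at this
  exact this

/-- the projection onto an eigenspace -/
noncomputable def Pk (p : ℕ) (A : VV d ≃ₗᵢ[ℂ] VV d) (ζ : ℂ) (k : ℕ) : Module.End ℂ (VV d) :=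
  (1 / (p : ℂ)) • ∑ m ∈ Finset.range p, ((ζ⁻¹) ^ k) ^ m • lm A ^ m

/-- the dimension of an eigenspace -/
theorem finrank_eig {p : ℕ} (hp : 0 < p) {A B : VV d ≃ₗᵢ[ℂ] VV d} (hA : A ^ p = 1) {ζ : ℂ}
    (hζ : IsPrimitiveRoot ζ p) (hr : ∀ v, A (B v) = ζ • B (A v)) (k : ℕ) :
    Module.finrank ℂ (Module.End.eigenspace (lm A) (ζ ^ k)) * p = d := by
  have hζ0 : ζ ≠ 0 := hζ.ne_zero hp.ne'
  have hp0 : (p : ℂ) ≠ 0 := by exact_mod_cast hp.ne'
  have hAp : lm A ^ p = 1 := by rw [← lm_pow, hA, lm_one]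
  set f : ℕ → Module.End ℂ (VV d) := fun m => ((ζ⁻¹) ^ k) ^ m • lm A ^ m with hf
  have hfp : f p = f 0 := by
    simp only [hf]
    rw [hAp, pow_zero, pow_zero, ← pow_mul, mul_comm k p, pow_mul, inv_pow, hζ.pow_eq_one,
      inv_one, one_pow]
  have hshift : ∑ m ∈ Finset.range p, f (m + 1) = ∑ m ∈ Finset.range p, f m := by
    have h1 := Finset.sum_range_succ f p
    have h2 := Finset.sum_range_succ' f p
    rw [h1, hfp] at h2
    exact (add_right_cancel h2).symm
  have hAf : ∀ m, lm A * f m = ζ ^ k • f (m + 1) := by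
    intro m
    simp only [hf]
    rw [mul_smul_comm, ← pow_succ', smul_smul]
    congr 1
    rw [pow_succ, inv_pow]
    field_simp
  have hAP : lm A * Pk p A ζ k = ζ ^ k • Pk p A ζ k := by
    have h1 : Pk p A ζ k = (1 / (p : ℂ)) • ∑ m ∈ Finset.range p, f m := rfl
    rw [h1, mul_smul_comm, Finset.mul_sum, Finset.sum_congr rfl fun m _ => hAf m,
      ← Finset.smul_sum, hshift, smul_comm]
  have hproj : LinearMap.IsProj (Module.End.eigenspace (lm A) (ζ ^ k)) (Pk p A ζ k) := by
    constructor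
    · intro v
      rw [Module.End.mem_eigenspace_iff]
      exact LinearMap.congr_fun hAP v
    · intro v hv
      rw [Module.End.mem_eigenspace_iff] at hv
      have h1 : ∀ m : ℕ, (lm A ^ m) v = (ζ ^ k) ^ m • v := by
        intro m
        induction m with
        | zero => simp
        | succ m ih =>
          rw [pow_succ, Module.End.mul_apply, hv, map_smul, ih, smul_smul, pow_succ, mul_comm]
      unfold Pk
      rw [LinearMap.smul_apply, LinearMap.sum_apply]
      have h2 : ∀ m ∈ Finset.range p, (((ζ⁻¹) ^ k) ^ m • lm A ^ m) v = v := by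
        intro m _
        rw [LinearMap.smul_apply, h1, smul_smul, ← mul_pow, ← mul_pow, inv_mul_cancel₀ hζ0,
          one_pow, one_pow, one_smul]
      rw [Finset.sum_congr rfl h2, Finset.sum_const, Finset.card_range, ← Nat.cast_smul_eq_nsmul ℂ,
        smul_smul, one_div, inv_mul_cancel₀ hp0, one_smul]
  have htr := hproj.trace
  have htr2 : tr (Pk p A ζ k) = (1 / (p : ℂ)) * d := by
    unfold Pk
    change LinearMap.trace ℂ (VV d) _ = _
    rw [map_smul, map_sum, smul_eq_mul]
    congr 1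
    rw [Finset.sum_eq_single 0]
    · rw [pow_zero, pow_zero, one_smul]
      exact tr_one
    · intro m hm hm0
      rw [map_smul]
      have h1 : tr (lm A ^ m) = 0 := by
        apply tr_zero_of (rel_end hr m)
        exact hζ.pow_ne_one_of_pos_of_lt hm0 (Finset.mem_range.1 hm)
      change _ • tr (lm A ^ m) = 0
      rw [h1, smul_zero]
    · intro h0
      exact absurd (Finset.mem_range.2 hp) h0
  change tr (Pk p A ζ k) = _ at htr
  rw [htr2] at htr
  have h3 : ((Module.finrank ℂ (Module.End.eigenspace (lm A) (ζ ^ k)) * p : ℕ) : ℂ) = d := by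
    push_cast
    rw [← htr]
    field_simp
  exact_mod_cast h3

/-- **The key lemma.** Let `A, B, H, W` be unitaries with `A^p = 1`, `AB = ζBA`, such that `H`
and `W` commute with `A` and `WH = λ A^c HW`, where `H^q` is a scalar for a power `q` of `p`. If `p²`
does not divide `d`, then `p` divides `c` and `λ = 1`. -/
theorem key {p : ℕ} (hp : p.Prime) (hpd : ¬ p ^ 2 ∣ d) (h : IsEtf d x) (hd : 1 ≤ d)
    {A B H W : VV d ≃ₗᵢ[ℂ] VV d} (hA : A ^ p = 1) {ζ : ℂ} (hζ : IsPrimitiveRoot ζ p)
    (hr : ∀ v, A (B v) = ζ • B (A v)) (hH : ∀ v, A (H v) = H (A v))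
    (hW : ∀ v, A (W v) = W (A v)) {l : ℂ} {c : ℕ}
    (hrel : ∀ v, W (H v) = l • (A ^ c) (H (W v))) {a : ℕ} {ε : ℂ} (hε : ε ≠ 0)
    (hHq : ∀ v, (H ^ p ^ a) v = ε • v) : p ∣ c ∧ l = 1 := by
  have hζ0 : ζ ≠ 0 := hζ.ne_zero hp.ne_zero
  set D := Module.finrank ℂ (Module.End.eigenspace (lm A) (ζ ^ 0)) with hD
  have hDp : ∀ k, Module.finrank ℂ (Module.End.eigenspace (lm A) (ζ ^ k)) = D := by
    intro k
    have h1 := finrank_eig hp.pos hA hζ hr k
    have h2 := finrank_eig hp.pos hA hζ hr 0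
    exact Nat.eq_of_mul_eq_mul_right hp.pos (h1.trans h2.symm)
  have hcop : ¬ p ∣ D := by
    intro h1
    apply hpd
    rw [← finrank_eig hp.pos hA hζ hr 0, sq]
    exact Nat.mul_dvd_mul h1 dvd_rfl
  have hroot : ∀ k, (l * (ζ ^ k) ^ c) ^ D = 1 := by
    intro k
    set E := Module.End.eigenspace (lm A) (ζ ^ k) with hE
    have mH : ∀ v ∈ E, lm H v ∈ E := by
      intro v hv
      rw [hE, Module.End.mem_eigenspace_iff] at hv ⊢
      rw [lm_apply, lm_apply, hH]
      have h1 : A v = ζ ^ k • v := hv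
      rw [h1, map_smul]
    have mW : ∀ v ∈ E, lm W v ∈ E := by
      intro v hv
      rw [hE, Module.End.mem_eigenspace_iff] at hv ⊢
      rw [lm_apply, lm_apply, hW]
      have h1 : A v = ζ ^ k • v := hv
      rw [h1, map_smul]
    have hA' : ∀ m : ℕ, ∀ v ∈ E, (A ^ m) v = (ζ ^ k) ^ m • v := by
      intro m v hv
      rw [hE, Module.End.mem_eigenspace_iff] at hv
      have h1 : A v = ζ ^ k • v := hv
      induction m with
      | zero => simp
      | succ m ih =>
        rw [pow_succ]
        change (A ^ m) (A v) = _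
        rw [h1, map_smul, ih, smul_smul, pow_succ, mul_comm]
    have h1 := det_root ((lm W).restrict mW) ((lm H).restrict mH) (ζ := l * (ζ ^ k) ^ c)
      (by
        intro u v huv
        apply Subtype.ext
        exact W.injective (congrArg Subtype.val huv))
      (by
        intro u v huv
        apply Subtype.ext
        exact H.injective (congrArg Subtype.val huv))
      (by
        intro v
        apply Subtype.ext
        change W (H v) = (l * (ζ ^ k) ^ c) • H (W v)
        rw [hrel, hA' c (H (W v)) (mH _ (mW _ v.2)), smul_smul])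
    rwa [hDp k] at h1
  -- `l` is a root of unity of order a power of `p`
  have hlq : l ^ p ^ (a + 1) = 1 := by
    have hHq' : ∀ v, (H ^ p ^ (a + 1)) v = ε ^ p • v := by
      intro v
      rw [pow_succ, pow_mul]
      have : ∀ n : ℕ, ∀ v, ((H ^ p ^ a) ^ n) v = ε ^ n • v := by
        intro n
        induction n with
        | zero => intro v; simp
        | succ n ih =>
          intro v
          rw [pow_succ]
          change ((H ^ p ^ a) ^ n) ((H ^ p ^ a) v) = _
          rw [hHq, map_smul, ih, smul_smul, pow_succ, mul_comm]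
      exact this p v
    have hpw : ∀ n : ℕ, ∀ v, W ((H ^ n) v) = l ^ n • (A ^ (c * n)) ((H ^ n) (W v)) := by
      have hAH : ∀ m : ℕ, ∀ v, (A ^ m) (H v) = H ((A ^ m) v) := by
        intro m v
        have := rel_pow (A := A) (B := H) (ζ := 1) (fun v => by rw [one_smul, hH]) m v
        rwa [one_pow, one_smul] at this
      intro n
      induction n with
      | zero => intro v; simp
      | succ n ih =>
        intro v
        rw [pow_succ]
        change W ((H ^ n) (H v)) = l ^ (n + 1) • (A ^ (c * (n + 1))) ((H ^ n) (H (W v)))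
        rw [ih, hrel, map_smul, map_smul, smul_smul]
        have h2 : ∀ u, (H ^ n) ((A ^ c) u) = (A ^ c) ((H ^ n) u) := by
          intro u
          have h3 := rel_pow (A := H) (B := A ^ c) (ζ := 1) (fun v => by
            rw [one_smul, hAH]) n u
          rwa [one_pow, one_smul] at h3
        rw [h2, mul_add, mul_one, pow_add A, pow_succ l]
        rfl
    obtain ⟨v₀, hv₀⟩ := exists_ne h hd
    have h1 := hpw (p ^ (a + 1)) v₀
    have h2 : A ^ (c * p ^ (a + 1)) = 1 := by
      rw [pow_succ, mul_comm, mul_assoc, mul_comm p, ← mul_assoc, mul_comm, pow_mul, hA, one_pow]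
    rw [h2, hHq', map_smul, hHq'] at h1
    have h3 : (ε ^ p * (1 - l ^ p ^ (a + 1))) • W v₀ = 0 := by
      rw [mul_sub, mul_one, sub_smul, h1]
      change l ^ p ^ (a + 1) • (ε ^ p • W v₀) - _ = 0
      rw [smul_smul, mul_comm, sub_self]
    rcases smul_eq_zero.1 h3 with h4 | h4
    · rcases mul_eq_zero.1 h4 with h5 | h5
      · exact absurd h5 (pow_ne_zero _ hε)
      · exact (sub_eq_zero.1 h5).symm
    · exact absurd (W.map_eq_zero_iff.1 h4) hv₀
  have hlD : l ^ D = 1 := by
    have := hroot 0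
    rwa [pow_zero, one_pow, mul_one] at this
  have hl : l = 1 := by
    have h1 := orderOf_dvd_of_pow_eq_one hlD
    have h2 := orderOf_dvd_of_pow_eq_one hlq
    have h3 : Nat.Coprime D (p ^ (a + 1)) := by
      apply Nat.Coprime.pow_right
      exact ((Nat.Prime.coprime_iff_not_dvd hp).2 hcop).symm
    have h4 := Nat.eq_one_of_dvd_coprimes h3 h1 h2
    exact orderOf_eq_one_iff.1 h4
  refine ⟨?_, hl⟩
  have h1 := hroot 1
  rw [hl, one_mul, pow_one, ← pow_mul] at h1
  have h2 := hζ.dvd_of_pow_eq_one _ h1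
  exact (hp.dvd_mul.1 h2).resolve_right hcop

end Pool.Agent.X159.Nil
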