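import Pool.Agent.X159.Nil.Sylow
import Pool.Agent.X159.Nil.Svn

set_option autoImplicit false

/-! Squarefree dimensions. -/

namespace Pool.Agent.X159.Nil

open Pool.Agent.Y387.SF

variable {d : ℕ} {x : Fin (d ^ 2) → VV d}

theorem pretrans {G : Subgroup (Equiv.Perm (Fin (d ^ 2)))}
    (htr : ∀ i j, ∃ π ∈ G, π i = j) : MulAction.IsPretransitive G (Fin (d ^ 2)) := by
  constructor
  intro i j
  obtain ⟨π, hπ, hij⟩ := htr i j
  exact ⟨⟨π, hπ⟩, hij⟩

/-- the elements of a Sylow subgroup have no fixed lines -/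
theorem sylow_free (hd4 : 4 ≤ d) (h : IsEtf d x) {G : Subgroup (Equiv.Perm (Fin (d ^ 2)))}
    (hG : SymG x G) (htr : ∀ i j, ∃ π ∈ G, π i = j) [Group.IsNilpotent G] {p : ℕ}
    [hp : Fact p.Prime] (hpd : p ∣ d) (hpd2 : ¬ p ^ 2 ∣ d) (P : Sylow p G) (y : G) (hy : y ∈ P)
    (i : Fin (d ^ 2)) (hi : (y : Equiv.Perm (Fin (d ^ 2))) i = i) : y = 1 := by
  classical
  have hpre := pretrans htr
  have h1 := sylow_card hd4 h hG htr hpd hpd2 P
  have h2 := P.card_eq_multiplicity
  rw [h1] at h2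
  have h3 : (Nat.card G).factorization p = 2 := (Nat.pow_right_injective hp.out.two_le h2).symm
  -- the stabiliser
  have h4 : (MulAction.stabilizer G i).index = d ^ 2 := by
    rw [MulAction.index_stabilizer, MulAction.orbit_eq_univ, Set.ncard_univ,
      Nat.card_eq_fintype_card, Fintype.card_fin]
  have h5 := Subgroup.card_mul_index (MulAction.stabilizer G i)
  rw [h4] at h5
  have hd0 : d ≠ 0 := by omega
  have hS0 : Nat.card (MulAction.stabilizer G i) ≠ 0 := Nat.card_pos.ne'
  have h6 : ¬ p ∣ Nat.card (MulAction.stabilizer G i) := by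
    intro h6
    have h7 : p ^ 3 ∣ Nat.card G := by
      rw [← h5, pow_succ, mul_comm]
      exact Nat.mul_dvd_mul h6 (pow_dvd_pow_of_dvd hpd 2)
    have h8 := (hp.out.pow_dvd_iff_le_factorization Nat.card_pos.ne').1 h7
    omega
  obtain ⟨a, ha⟩ := P.isPGroup' ⟨y, hy⟩
  have ha' : y ^ p ^ a = 1 := congrArg Subtype.val ha
  have h7 : orderOf y ∣ p ^ a := orderOf_dvd_of_pow_eq_one ha'
  have h8 : orderOf y ∣ Nat.card (MulAction.stabilizer G i) := by
    have h9 : y ∈ MulAction.stabilizer G i := hi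
    have h10 := orderOf_dvd_natCard (⟨y, h9⟩ : MulAction.stabilizer G i)
    rwa [Subgroup.orderOf_mk] at h10
  have h9 : Nat.Coprime (p ^ a) (Nat.card (MulAction.stabilizer G i)) :=
    Nat.Coprime.pow_left _ ((Nat.Prime.coprime_iff_not_dvd hp.out).2 h6)
  exact orderOf_eq_one_iff.1 (Nat.eq_one_of_dvd_coprimes h9 h7 h8)

/-- the order of the group -/
theorem card_group (hd4 : 4 ≤ d) (hsq : Squarefree d) (h : IsEtf d x)
    {G : Subgroup (Equiv.Perm (Fin (d ^ 2)))}
    (hG : SymG x G) (htr : ∀ i j, ∃ π ∈ G, π i = j) [Group.IsNilpotent G] :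
    Nat.card G = d ^ 2 := by
  have hd : 1 ≤ d := by omega
  have hd0 : d ≠ 0 := by omega
  apply Nat.eq_of_factorization_eq Nat.card_pos.ne' (pow_ne_zero 2 hd0)
  intro p
  by_cases hp : p.Prime
  · have : Fact p.Prime := ⟨hp⟩
    by_cases hpd : p ∣ d
    · have hpd2 : ¬ p ^ 2 ∣ d := by
        intro h1
        rw [sq] at h1
        exact hp.one_lt.ne' (Nat.isUnit_iff.1 (hsq p h1))
      obtain ⟨P⟩ : Nonempty (Sylow p G) := inferInstance
      have h1 := sylow_card hd4 h hG htr hpd hpd2 P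
      rw [P.card_eq_multiplicity] at h1
      have h2 : (Nat.card G).factorization p = 2 := Nat.pow_right_injective hp.two_le h1
      rw [h2, Nat.factorization_pow]
      have h3 : d.factorization p = 1 := by
        have h4 := (Nat.squarefree_iff_factorization_le_one hd0).1 hsq p
        have h5 : 0 < d.factorization p := hp.factorization_pos_of_dvd hd0 hpd
        omega
      simp [h3]
    · have h1 : ¬ p ∣ Nat.card G := fun h1 => hpd (prime_dvd h hd hG htr hp h1)
      have h2 : ¬ p ∣ d ^ 2 := fun h2 => hpd (hp.dvd_of_dvd_pow h2)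
      rw [Nat.factorization_eq_zero_of_not_dvd h1, Nat.factorization_eq_zero_of_not_dvd h2]
  · rw [Nat.factorization_eq_zero_of_not_prime _ hp, Nat.factorization_eq_zero_of_not_prime _ hp]

open scoped IsMulCommutative in
theorem exists_exp (C : Type*) [Group C] [Finite C] [IsMulCommutative C] :
    ∃ a : C, orderOf a = Monoid.exponent C :=
  Monoid.exists_orderOf_eq_exponent (G := C) Monoid.ExponentExists.of_finite

/-- a central element of order `n` -/
theorem exists_order {G : Type*} [Group G] [Finite G] [Group.IsNilpotent G] {n : ℕ}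
    (hsq : Squarefree n) (hn : ∀ p : ℕ, p.Prime → p ∣ n → p ∣ Nat.card G) :
    ∃ a : G, orderOf a = n ∧ ∀ y, a * y = y * a := by
  classical
  have hexp : n ∣ Monoid.exponent (Subgroup.center G) := by
    rw [← Nat.prod_primeFactors_of_squarefree hsq]
    apply Finset.prod_primes_dvd
    · intro p hp
      exact (Nat.prime_of_mem_primeFactors hp).prime
    · intro p hp
      have hp' := Nat.prime_of_mem_primeFactors hp
      have : Fact p.Prime := ⟨hp'⟩
      have hpd := Nat.dvd_of_mem_primeFactors hp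
      obtain ⟨P⟩ : Nonempty (Sylow p G) := inferInstance
      have hPn : (P : Subgroup G).Normal := inferInstance
      have hPne : (P : Subgroup G) ≠ ⊥ := P.ne_bot_of_dvd_card (hn p hp' hpd)
      obtain ⟨z, -, hz1, hzp, hzc⟩ := exists_central_prime (P : Subgroup G) P.isPGroup' hPne
      have hzC : z ∈ Subgroup.center G := Subgroup.mem_center_iff.2 fun y => (hzc y).symm
      have h1 : orderOf (⟨z, hzC⟩ : Subgroup.center G) = p := by
        rw [Subgroup.orderOf_mk]
        exact orderOf_eq_prime hzp hz1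
      rw [← h1]
      exact Monoid.order_dvd_exponent _
  obtain ⟨a₀, ha₀⟩ := exists_exp (Subgroup.center G)
  obtain ⟨e, he⟩ := hexp
  have he0 : e ≠ 0 := by
    rintro rfl
    rw [mul_zero] at he
    exact Monoid.exponent_ne_zero_of_finite he
  have h1 : orderOf (a₀ ^ e) = n := by
    rw [orderOf_pow_of_dvd he0 (by rw [ha₀, he]; exact Dvd.intro_left _ rfl), ha₀, he,
      Nat.mul_div_cancel _ (Nat.pos_of_ne_zero he0)]
  refine ⟨((a₀ ^ e : Subgroup.center G) : G), ?_, fun y => ?_⟩
  · rw [Subgroup.orderOf_coe, h1]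
  · exact (Subgroup.mem_center_iff.1 (a₀ ^ e : Subgroup.center G).2 y).symm

/-- the character of a central element of order `d` is surjective -/
theorem exists_prim (h : IsEtf d x) (hd : 1 ≤ d)
    {G : Subgroup (Equiv.Perm (Fin (d ^ 2)))} (hG : SymG x G)
    (htr : ∀ i j, ∃ π ∈ G, π i = j) {a : G} (ha : orderOf a = d)
    {A : VV d ≃ₗᵢ[ℂ] VV d} (hA : Ind x A (a : Equiv.Perm (Fin (d ^ 2))))
    {χ : G →* ℂ} (hχ : IsChi x A χ) : ∃ b : G, IsPrimitiveRoot (χ b) d := by
  classical
  have hχd : ∀ y, χ y ^ d = 1 := fun y => chi_det hG hχ y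
  set χ' : G →* ℂˣ := χ.toHomUnits with hχ'
  have hχv : ∀ y, ((χ' y : ℂˣ) : ℂ) = χ y := fun y => MonoidHom.coe_toHomUnits _ _
  have hfin : Finite χ'.range := inferInstance
  have hcyc : IsCyclic χ'.range := inferInstance
  obtain ⟨⟨s, hs⟩, hgen⟩ := hcyc.exists_generator
  obtain ⟨b, rfl⟩ := hs
  refine ⟨b, ?_⟩
  have h1 : orderOf (χ b) ∣ d := orderOf_dvd_of_pow_eq_one (hχd b)
  suffices h2 : orderOf (χ b) = d by
    have h3 := IsPrimitiveRoot.orderOf (χ b)
    rw [h2] at h3
    exact h3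
  by_contra hne
  -- all values lie in a smaller group
  set e := orderOf (χ b) with he
  have hall : ∀ y, χ y ^ e = 1 := by
    intro y
    obtain ⟨k, hk⟩ := Subgroup.mem_zpowers_iff.1 (hgen ⟨χ' y, ⟨y, rfl⟩⟩)
    have hk' : χ' b ^ k = χ' y := congrArg Subtype.val hk
    have h3 : χ' b ^ e = 1 := by
      rw [Units.ext_iff, Units.val_pow_eq_pow_val, hχv, Units.val_one, he, pow_orderOf_eq_one]
    have h4 : χ' y ^ e = 1 := by
      rw [← hk', ← zpow_natCast, ← zpow_mul, mul_comm, zpow_mul, zpow_natCast, h3, one_zpow]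
    rw [← hχv, ← Units.val_pow_eq_pow_val, h4, Units.val_one]
  have hAe : Ind x (A ^ e) ((a ^ e : G) : Equiv.Perm (Fin (d ^ 2))) :=
    Pool.Agent.Y387.RU.ind_pow hA e
  have hae : a ^ e ≠ 1 := by
    intro h0
    have h3 := orderOf_dvd_of_pow_eq_one h0
    rw [ha] at h3
    exact hne (Nat.dvd_antisymm h1 h3)
  have hχe : IsChi x (A ^ e) (χ ^ e) := by
    intro y B hB v
    rw [MonoidHom.pow_apply]
    exact rel_pow (hχ y B hB) e v
  obtain ⟨y, hy⟩ := chi_nontrivial h hd hG htr hAe (fun h0 => hae (Subtype.ext h0)) hχe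
  exact hy (by rw [MonoidHom.pow_apply, hall])

end Pool.Agent.X159.Nil
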