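import Pool.Agent.X159.Nil.Dim

set_option autoImplicit false

/-! Sylow subgroups of transitive nilpotent groups of symmetries. -/

namespace Pool.Agent.X159.Nil

open Pool.Agent.Y387.SF

variable {d : ℕ} {x : Fin (d ^ 2) → VV d}

theorem numeric {p : ℕ} (hp : p.Prime) (hd : 4 ≤ d) (hpd : p ∣ d) (hpd2 : ¬ p ^ 2 ∣ d) {f : ℕ}
    (hf : d ^ 2 ≤ p * f) (hb : ((p : ℝ) - 1) * f ≤ p * Real.sqrt f + d) : False := by
  set s := Real.sqrt (f : ℝ) with hs
  set t := Real.sqrt (p : ℝ) with ht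
  have hs0 : 0 ≤ s := Real.sqrt_nonneg _
  have ht0 : 0 ≤ t := Real.sqrt_nonneg _
  have hs2 : s ^ 2 = f := Real.sq_sqrt (Nat.cast_nonneg _)
  have ht2 : t ^ 2 = p := Real.sq_sqrt (Nat.cast_nonneg _)
  have hf' : (d : ℝ) ^ 2 ≤ p * f := by exact_mod_cast hf
  have hd0 : (4 : ℝ) ≤ d := by exact_mod_cast hd
  have h1 : (d : ℝ) ≤ t * s := by
    rw [← ht2, ← hs2, ← mul_pow] at hf'
    exact (pow_le_pow_iff_left₀ (by linarith) (mul_nonneg ht0 hs0) two_ne_zero).1 hf'
  have hp2 : (2 : ℝ) ≤ p := by exact_mod_cast hp.two_le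
  have ht1 : 1 < t := by nlinarith
  have hspos : 0 < s := by nlinarith
  -- `(t - 1) s ≤ t`
  have h2 : (t - 1) * s ≤ t := by
    have h3 : (t ^ 2 - 1) * s ^ 2 ≤ t ^ 2 * s + t * s := by
      rw [ht2, hs2]
      linarith
    have h4 : (s * (t + 1)) * ((t - 1) * s) ≤ (s * (t + 1)) * t := by nlinarith
    exact le_of_mul_le_mul_left h4 (by positivity)
  have h3 : (t - 1) * d ≤ p := by
    rw [← ht2]
    nlinarith
  by_cases h5 : 5 ≤ p
  · have h5' : (5 : ℝ) ≤ p := by exact_mod_cast h5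
    have h6 : (2 : ℝ) < t := by nlinarith
    have h7 : (p : ℝ) ≤ d := by exact_mod_cast Nat.le_of_dvd (by omega) hpd
    nlinarith
  · have h6 : p = 2 ∨ p = 3 := by
      have := hp.two_le
      interval_cases p
      · exact Or.inl rfl
      · exact Or.inr rfl
      · exact absurd hp (by norm_num)
    have hd6 : 6 ≤ d := by
      obtain ⟨e, he⟩ := hpd
      rcases h6 with rfl | rfl
      · by_contra hcon
        have : e = 2 := by omega
        subst this
        exact hpd2 ⟨1, by omega⟩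
      · omega
    have hd6' : (6 : ℝ) ≤ d := by exact_mod_cast hd6
    rcases h6 with rfl | rfl
    · have h7 : t ^ 2 = 2 := by rw [ht2]; norm_num
      have h8 : 1.4 < t := by nlinarith
      push_cast at h3
      nlinarith
    · have h7 : t ^ 2 = 3 := by rw [ht2]; norm_num
      have h8 : 1.7 < t := by nlinarith
      push_cast at h3
      nlinarith

/-- a central element of prime order in a nontrivial normal `p`-subgroup of a nilpotent group -/
theorem exists_central_prime {G : Type*} [Group G] [Group.IsNilpotent G] {p : ℕ}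
    (P : Subgroup G) [P.Normal] (hP : IsPGroup p P) (hne : P ≠ ⊥) :
    ∃ z ∈ P, z ≠ 1 ∧ z ^ p = 1 ∧ ∀ y, z * y = y * z := by
  obtain ⟨g, hg, hg1, hgc⟩ := Pool.Agent.Y387.RU.exists_central P hne
  obtain ⟨k, hk⟩ := hP ⟨g, hg⟩
  have hk' : g ^ p ^ k = 1 := congrArg Subtype.val hk
  have hex : ∃ k, g ^ p ^ k = 1 := ⟨k, hk'⟩
  classical
  have h1 := Nat.find_spec hex
  have h0 : Nat.find hex ≠ 0 := by
    intro h0
    rw [h0, pow_zero, pow_one] at h1
    exact hg1 h1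
  obtain ⟨m, hm⟩ := Nat.exists_eq_succ_of_ne_zero h0
  have h2 := Nat.find_min hex (m := m) (by omega)
  refine ⟨g ^ p ^ m, pow_mem hg _, h2, ?_, fun y => ?_⟩
  · rw [← pow_mul, ← pow_succ]
    rw [hm] at h1
    exact h1
  · exact ((show Commute g y from hgc y).pow_left _).eq

/-- the number of fixed lines -/
theorem count_fix (h : IsEtf d x) {G : Subgroup (Equiv.Perm (Fin (d ^ 2)))}
    (htr : ∀ i j, ∃ π ∈ G, π i = j) {p : ℕ} (hp : 0 < p) {χ : G →* ℂ}
    (hχp : ∀ y, χ y ^ p = 1) {g : G} (hg : IsPrimitiveRoot (χ g) p)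
    {b : Equiv.Perm (Fin (d ^ 2))}
    (hb : ∀ n : G, χ n = 1 → (n : Equiv.Perm (Fin (d ^ 2))) * b =
      b * (n : Equiv.Perm (Fin (d ^ 2))))
    {i₀ : Fin (d ^ 2)} (hi₀ : b i₀ = i₀) : d ^ 2 ≤ p * Pool.Agent.W864.Sym.fix b := by
  classical
  have : NeZero p := ⟨hp.ne'⟩
  have hζ0 : χ g ≠ 0 := hg.ne_zero hp.ne'
  set F : Finset (Fin (d ^ 2)) := Finset.univ.filter fun i => b i = i with hF
  have hFf : Pool.Agent.W864.Sym.fix b = F.card := rfl
  have hsurj : (Finset.univ : Finset (Fin (d ^ 2))) ⊆ ((Finset.univ : Finset (Fin p)) ×ˢ F).image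
      (fun q => ((g ^ (q.1 : ℕ) : G) : Equiv.Perm (Fin (d ^ 2))) q.2) := by
    intro j _
    obtain ⟨w, hw, hwj⟩ := htr i₀ j
    obtain ⟨k, hk, hk'⟩ := hg.eq_pow_of_pow_eq_one (hχp ⟨w, hw⟩)
    set n : G := (g ^ k)⁻¹ * ⟨w, hw⟩ with hn
    have hn1 : χ n = 1 := by
      have h1 : χ (g ^ k) * χ n = χ ⟨w, hw⟩ := by
        rw [← map_mul, hn, mul_inv_cancel_left]
      rw [map_pow, hk'] at h1
      have h2 : χ ⟨w, hw⟩ ≠ 0 := by
        rw [← hk']
        exact pow_ne_zero _ hζ0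
      have h3 : (χ n - 1) * χ ⟨w, hw⟩ = 0 := by linear_combination h1
      rcases mul_eq_zero.1 h3 with h4 | h4
      · exact sub_eq_zero.1 h4
      · exact absurd h4 h2
    rw [Finset.mem_image]
    refine ⟨(⟨k, hk⟩, (n : Equiv.Perm (Fin (d ^ 2))) i₀), ?_, ?_⟩
    · rw [Finset.mem_product]
      refine ⟨Finset.mem_univ _, ?_⟩
      rw [hF, Finset.mem_filter]
      refine ⟨Finset.mem_univ _, ?_⟩
      have h1 := congrArg (fun e : Equiv.Perm (Fin (d ^ 2)) => e i₀) (hb n hn1)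
      change (n : Equiv.Perm (Fin (d ^ 2))) (b i₀) = b ((n : Equiv.Perm (Fin (d ^ 2))) i₀) at h1
      rw [← h1, hi₀]
    · rw [← hwj]
      change ((g ^ k * n : G) : Equiv.Perm (Fin (d ^ 2))) i₀ = w i₀
      rw [hn, mul_inv_cancel_left]
  have h1 := Finset.card_le_card hsurj
  rw [Finset.card_univ, Fintype.card_fin] at h1
  refine h1.trans (Finset.card_image_le.trans ?_)
  rw [Finset.card_product, Finset.card_univ, Fintype.card_fin, hFf]

/-- **No fixed lines.** The main step: there is no element `h` of `p`-power order in the kernel of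
`χ`, outside of `⟨z⟩`, whose commutators lie in `⟨z⟩`. -/
theorem no_second (hd4 : 4 ≤ d) (h : IsEtf d x) {G : Subgroup (Equiv.Perm (Fin (d ^ 2)))}
    (hG : SymG x G) (htr : ∀ i j, ∃ π ∈ G, π i = j) {p : ℕ} (hp : p.Prime) (hpd : p ∣ d)
    (hpd2 : ¬ p ^ 2 ∣ d) {z : G} (hzp : z ^ p = 1) (hzc : ∀ y, z * y = y * z)
    {A : VV d ≃ₗᵢ[ℂ] VV d} (hA : Ind x A (z : Equiv.Perm (Fin (d ^ 2)))) (hAp : A ^ p = 1)
    {χ : G →* ℂ} (hχ : IsChi x A χ) {g : G} (hg : IsPrimitiveRoot (χ g) p)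
    (y : G) (hy1 : χ y = 1) {a : ℕ} (hya : y ^ p ^ a = 1) (hyz : ∀ m : ℕ, y ≠ z ^ m)
    (hyc : ∀ n : G, ∃ c : ℕ, n * y = z ^ c * (y * n)) : False := by
  classical
  have hd : 1 ≤ d := by omega
  have hχp : ∀ y, χ y ^ p = 1 := by
    intro w
    exact chi_pow h hd hG hA hχ (by
      have := congrArg Subtype.val hzp
      exact this) w
  obtain ⟨H, hH⟩ := hG y y.2
  obtain ⟨B, hB⟩ := hG g g.2
  have hr := hχ g B hB
  have hAH : ∀ v, A (H v) = H (A v) := by
    intro v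
    have := hχ y H hH v
    rwa [hy1, one_smul] at this
  obtain ⟨ε, hε1, hε⟩ := scalar_of_pow h hd hH (n := p ^ a) (congrArg Subtype.val hya)
  have hε0 : ε ≠ 0 := by
    rintro rfl
    simp at hε1
  -- everything in the kernel commutes with `y`
  have hcom : ∀ n : G, χ n = 1 → n * y = y * n ∧
      ∀ W : VV d ≃ₗᵢ[ℂ] VV d, Ind x W (n : Equiv.Perm (Fin (d ^ 2))) →
        ∀ v, W (H v) = H (W v) := by
    intro n hn
    obtain ⟨c, hc⟩ := hyc n
    have hAc : Ind x (A ^ c) ((z ^ c : G) : Equiv.Perm (Fin (d ^ 2))) :=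
      Pool.Agent.Y387.RU.ind_pow hA c
    have key' : ∀ W : VV d ≃ₗᵢ[ℂ] VV d, Ind x W (n : Equiv.Perm (Fin (d ^ 2))) →
        p ∣ c ∧ ∀ v, W (H v) = H (W v) := by
      intro W hW
      obtain ⟨l, hl1, hl⟩ := comm_rel h hd hW hH hAc (congrArg Subtype.val hc)
      have hAW : ∀ v, A (W v) = W (A v) := by
        intro v
        have := hχ n W hW v
        rwa [hn, one_smul] at this
      obtain ⟨h1, h2⟩ := key hp hpd2 h hd hAp hg hr hAH hAW hl hε0 hε
      refine ⟨h1, fun v => ?_⟩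
      obtain ⟨e, rfl⟩ := h1
      rw [hl, h2, one_smul, pow_mul, hAp, one_pow]
      rfl
    obtain ⟨W, hW⟩ := hG n n.2
    obtain ⟨e, he⟩ := (key' W hW).1
    refine ⟨?_, fun W hW => (key' W hW).2⟩
    rw [hc, he, pow_mul, hzp, one_pow, one_mul]
  obtain ⟨m, hm, hmt⟩ := exists_trace_ne h hd hG htr hp.pos hχ hχp hg
    (fun n hn W hW => (hcom n hn).2 W hW)
  -- the element with fixed lines
  set b : G := z⁻¹ ^ m * y with hb
  have hbI : Ind x (A⁻¹ ^ m * H) (b : Equiv.Perm (Fin (d ^ 2))) :=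
    (Pool.Agent.Y387.RU.ind_pow (hA.inv h) m).mul hH
  have hbfix := trace_fix h hd hbI
  have hbf0 : Pool.Agent.W864.Sym.fix (b : Equiv.Perm (Fin (d ^ 2))) ≠ 0 := by
    intro h0
    rw [h0, Nat.cast_zero, lm_mul, lm_pow] at hbfix
    rcases mul_eq_zero.1 hbfix with h1 | h1
    · exact hmt h1
    · exact hmt (star_eq_zero.1 h1)
  obtain ⟨i₀, hi₀⟩ := Finset.card_pos.1 (Nat.pos_of_ne_zero hbf0)
  rw [Finset.mem_filter] at hi₀
  have hzc' : ∀ k w, Commute (z ^ k) w := fun k w => (show Commute z w from hzc w).pow_left k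
  have hb1 : b ≠ 1 := by
    intro h0
    apply hyz m
    rw [hb] at h0
    have h1 : y = (z⁻¹ ^ m)⁻¹ := eq_inv_of_mul_eq_one_right h0
    rw [h1, inv_pow, inv_inv]
  have hzinv : z⁻¹ = z ^ (p - 1) := by
    rw [inv_eq_iff_mul_eq_one, ← pow_succ', Nat.sub_add_cancel hp.one_lt.le, hzp]
  have hbn : ∀ n : G, χ n = 1 → n * b = b * n := by
    intro n hn
    have h1 : Commute n y := (hcom n hn).1
    have h2 : Commute n (z⁻¹ ^ m) := by
      rw [hzinv, ← pow_mul]
      exact (hzc' _ n).symm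
    exact (h2.mul_right h1).eq
  have hbp : b ^ p ^ (a + 1) = 1 := by
    have h1 : Commute (z⁻¹ ^ m) y := by
      rw [hzinv, ← pow_mul]
      exact hzc' _ y
    rw [hb, h1.mul_pow, ← pow_mul, mul_comm m, pow_mul, pow_succ p, pow_mul y, hya, one_pow,
      mul_one, mul_comm (p ^ a) p, pow_mul z⁻¹, inv_pow, hzp, inv_one, one_pow, one_pow]
  have hex : ∃ k, b ^ p ^ k = 1 := ⟨a + 1, hbp⟩
  have h1 := Nat.find_spec hex
  have h0 : Nat.find hex ≠ 0 := by
    intro h0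
    rw [h0, pow_zero, pow_one] at h1
    exact hb1 h1
  obtain ⟨k, hk⟩ := Nat.exists_eq_succ_of_ne_zero h0
  have h2 := Nat.find_min hex (m := k) (by omega)
  rw [hk] at h1
  set b' : G := b ^ p ^ k with hb'
  have hb'p : b' ^ p = 1 := by
    rw [hb', ← pow_mul, ← pow_succ]
    exact h1
  have hb'n : ∀ n : G, χ n = 1 → n * b' = b' * n := by
    intro n hn
    exact ((show Commute n b from hbn n hn).pow_right _).eq
  have hb'fix : (b' : Equiv.Perm (Fin (d ^ 2))) i₀ = i₀ := by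
    have h3 : ∀ t : ℕ, ((b ^ t : G) : Equiv.Perm (Fin (d ^ 2))) i₀ = i₀ := by
      intro t
      induction t with
      | zero => rfl
      | succ t ih =>
        have h4 : b ^ (t + 1) = b ^ t * b := pow_succ b t
        rw [h4]
        change ((b ^ t : G) : Equiv.Perm (Fin (d ^ 2))) ((b : Equiv.Perm (Fin (d ^ 2))) i₀) = i₀
        rw [hi₀.2, ih]
    exact h3 _
  have hcount := count_fix h htr hp.pos hχp hg (b := (b' : Equiv.Perm (Fin (d ^ 2))))
    (fun n hn => congrArg Subtype.val (hb'n n hn)) hb'fix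
  obtain ⟨U, hU⟩ := hG b' b'.2
  have hbound := prime_bound h hd hU hp (congrArg Subtype.val hb'p)
    (fun h3 => h2 (Subtype.ext h3))
  exact numeric hp hd4 hpd hpd2 hcount hbound

end Pool.Agent.X159.Nil
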