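import Pool.Agent.X159.Nil.Global

set_option autoImplicit false

/-! Weyl-Heisenberg orbits. -/

namespace Pool.Agent.X159.Nil

open Pool.Agent.Y387.SF

variable {d : ℕ} {x : Fin (d ^ 2) → VV d}

/-- the frame is a Weyl-Heisenberg orbit: in the orthonormal basis `e`, indexed by `ℤ/d`, the line
of `x i` with `σ i = (t, s)` is spanned by the vector with the coordinates `ω^(s j) ψ (j - t)` -/
def IsWH [NeZero d] (x : Fin (d ^ 2) → VV d) : Prop :=
  ∃ (e : OrthonormalBasis (ZMod d) ℂ (VV d)) (ω : ℂ) (ψ : ZMod d → ℂ)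
    (σ : Fin (d ^ 2) ≃ ZMod d × ZMod d), IsPrimitiveRoot ω d ∧
    ∀ i, ∃ c : ℂ, ‖c‖ = 1 ∧
      x i = c • ∑ j, (ω ^ ((σ i).2.val * j.val) * ψ (j - (σ i).1)) • e j

/-- the structure of the group and of the frame -/
theorem structure_of [hne0 : NeZero d] (hd2 : 2 ≤ d) (h : IsEtf d x)
    {G : Subgroup (Equiv.Perm (Fin (d ^ 2)))}
    (hG : SymG x G) (htr : ∀ i j, ∃ π ∈ G, π i = j) (hcard : Nat.card G = d ^ 2) {a : G}
    (ha : orderOf a = d) (hac : ∀ y, a * y = y * a) :
    Nonempty (G ≃* Multiplicative (ZMod d × ZMod d)) ∧ IsWH x := by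
  classical
  have hd : 1 ≤ d := by omega
  have hd0 : d ≠ 0 := by omega
  obtain ⟨A, hA⟩ := hG a a.2
  obtain ⟨χ, hχ⟩ := exists_chi h hd hG hA (fun y hy => congrArg Subtype.val (hac ⟨y, hy⟩))
  obtain ⟨b, hb⟩ := exists_prim h hd hG htr ha hA hχ
  obtain ⟨B, hB⟩ := hG b b.2
  set ω := χ b with hω
  have hAB : ∀ v, A (B v) = ω • B (A v) := hχ b B hB
  have hχa : χ a = 1 := by
    obtain ⟨v₀, hv₀⟩ := exists_ne h hd
    have h1 := hχ a A hA v₀
    have h2 : (1 - χ a) • A (A v₀) = 0 := by rw [sub_smul, one_smul, ← h1, sub_self]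
    rcases smul_eq_zero.1 h2 with h3 | h3
    · exact (sub_eq_zero.1 h3).symm
    · exact absurd (A.map_eq_zero_iff.1 (A.map_eq_zero_iff.1 h3)) hv₀
  have had : a ^ d = 1 := by
    have := pow_orderOf_eq_one a
    rwa [ha] at this
  have hcomm : ∀ (s : ℕ) (y : G), Commute (a ^ s) y := fun s y =>
    (show Commute a y from hac y).pow_left s
  have hinj : ∀ s t s' t' : ℕ, s < d → t < d → s' < d → t' < d →
      a ^ s * b ^ t = a ^ s' * b ^ t' → s = s' ∧ t = t' := by
    intro s t s' t' hs ht hs' ht' he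
    have h1 := congrArg χ he
    rw [map_mul, map_mul, map_pow, map_pow, map_pow, map_pow, hχa, one_pow, one_pow, one_mul,
      one_mul] at h1
    have h2 : t = t' := hb.pow_inj ht ht' h1
    subst h2
    refine ⟨?_, rfl⟩
    have h3 := mul_right_cancel he
    exact pow_injOn_Iio_orderOf (by rw [Set.mem_Iio, ha]; exact hs)
      (by rw [Set.mem_Iio, ha]; exact hs') h3
  let F : Fin d × Fin d → G := fun q => a ^ (q.1 : ℕ) * b ^ (q.2 : ℕ)
  have hFinj : Function.Injective F := by
    intro q q' hq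
    obtain ⟨h1, h2⟩ := hinj _ _ _ _ q.1.2 q.2.2 q'.1.2 q'.2.2 hq
    exact Prod.ext (Fin.ext h1) (Fin.ext h2)
  have hFbij : Function.Bijective F := by
    rw [Fintype.bijective_iff_injective_and_card]
    refine ⟨hFinj, ?_⟩
    rw [Fintype.card_prod, Fintype.card_fin, ← Nat.card_eq_fintype_card, hcard, sq]
  have hall : ∀ y : G, ∃ s t : ℕ, s < d ∧ t < d ∧ y = a ^ s * b ^ t := by
    intro y
    obtain ⟨q, hq⟩ := hFbij.2 y
    exact ⟨q.1, q.2, q.1.2, q.2.2, hq.symm⟩
  -- the order of `b`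
  have hbd : b ^ d = 1 := by
    obtain ⟨s, t, hs, ht, hst⟩ := hall (b ^ d)
    have h1 := congrArg χ hst
    rw [map_mul, map_pow, map_pow, map_pow, hχa, one_pow, one_mul, ← hω, hb.pow_eq_one] at h1
    have h2 : t = 0 := by
      have := hb.pow_inj (i := t) (j := 0) ht (by omega) (by rw [pow_zero, ← h1])
      exact this
    rw [h2, pow_zero, mul_one] at hst
    -- `B` commutes with `A^s`
    have h3 : Ind x (B ^ d) ((a ^ s : G) : Equiv.Perm (Fin (d ^ 2))) := by
      rw [← hst]
      exact Pool.Agent.Y387.RU.ind_pow hB d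
    have h4 : Ind x (A ^ s) ((a ^ s : G) : Equiv.Perm (Fin (d ^ 2))) :=
      Pool.Agent.Y387.RU.ind_pow hA s
    obtain ⟨c, hc1, hc⟩ := lift_unique h hd h4 h3
    have h5 : ∀ v, (A ^ s) (B v) = B ((A ^ s) v) := by
      intro v
      rw [hc, hc, map_smul]
      congr 1
      change (B ^ d * B) v = (B * B ^ d) v
      rw [← pow_succ, ← pow_succ']
    have h6 := rel_pow hAB s
    obtain ⟨v₀, hv₀⟩ := exists_ne h hd
    have h7 : (ω ^ s - 1) • B ((A ^ s) v₀) = 0 := by
      rw [sub_smul, one_smul, ← h6, h5, sub_self]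
    have h8 : ω ^ s = 1 := by
      rcases smul_eq_zero.1 h7 with h8 | h8
      · exact sub_eq_zero.1 h8
      · exact absurd ((A ^ s).map_eq_zero_iff.1 (B.map_eq_zero_iff.1 h8)) hv₀
    have h9 : s = 0 := hb.pow_inj (i := s) (j := 0) hs (by omega) (by rw [pow_zero, h8])
    rw [hst, h9, pow_zero]
  constructor
  · let f : Multiplicative (ZMod d × ZMod d) →* G :=
      { toFun := fun q => a ^ (Multiplicative.toAdd q).1.val * b ^ (Multiplicative.toAdd q).2.val
        map_one' := by
          change a ^ (0 : ZMod d).val * b ^ (0 : ZMod d).val = 1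
          rw [ZMod.val_zero, pow_zero, pow_zero, one_mul]
        map_mul' := by
          intro q r
          change a ^ ((Multiplicative.toAdd q).1 + (Multiplicative.toAdd r).1).val *
            b ^ ((Multiplicative.toAdd q).2 + (Multiplicative.toAdd r).2).val = _
          rw [ZMod.val_add, ZMod.val_add, ← pow_eq_pow_mod _ had, ← pow_eq_pow_mod _ hbd,
            pow_add, pow_add]
          have hc : a ^ (Multiplicative.toAdd r).1.val * b ^ (Multiplicative.toAdd q).2.val =
            b ^ (Multiplicative.toAdd q).2.val * a ^ (Multiplicative.toAdd r).1.val :=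
            (hcomm _ _).eq
          calc _ = a ^ (Multiplicative.toAdd q).1.val * (a ^ (Multiplicative.toAdd r).1.val *
                b ^ (Multiplicative.toAdd q).2.val) * b ^ (Multiplicative.toAdd r).2.val := by
                simp only [mul_assoc]
            _ = _ := by rw [hc]; simp only [mul_assoc] }
    have hfinj : Function.Injective f := by
      intro q r hqr
      obtain ⟨h1, h2⟩ := hinj _ _ _ _ (ZMod.val_lt _) (ZMod.val_lt _) (ZMod.val_lt _)
        (ZMod.val_lt _) hqr
      exact Prod.ext (ZMod.val_injective d h1) (ZMod.val_injective d h2)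
    have hfbij : Function.Bijective f := by
      rw [Fintype.bijective_iff_injective_and_card]
      refine ⟨hfinj, ?_⟩
      rw [Fintype.card_multiplicative, Fintype.card_prod, ZMod.card,
        ← Nat.card_eq_fintype_card, hcard, sq]
    exact ⟨(MulEquiv.ofBijective f hfbij).symm⟩
  · obtain ⟨e₀, l, m, hl, hm, hAe, hBe⟩ := svn hd2 A B hb hAB
    set i₀ : Fin (d ^ 2) := ⟨0, by positivity⟩ with hi₀
    let Φ : ZMod d × ZMod d → Fin (d ^ 2) := fun q =>
      ((a ^ q.2.val * b ^ q.1.val : G) : Equiv.Perm (Fin (d ^ 2))) i₀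
    have hΦs : Function.Surjective Φ := by
      intro j
      obtain ⟨w, hw, hwj⟩ := htr i₀ j
      obtain ⟨s, t, hs, ht, hst⟩ := hall ⟨w, hw⟩
      refine ⟨((t : ZMod d), (s : ZMod d)), ?_⟩
      change ((a ^ (s : ZMod d).val * b ^ (t : ZMod d).val : G) : Equiv.Perm (Fin (d ^ 2))) i₀ = j
      rw [ZMod.val_cast_of_lt hs, ZMod.val_cast_of_lt ht, ← hst]
      exact hwj
    have hΦb : Function.Bijective Φ := by
      rw [Fintype.bijective_iff_surjective_and_card]
      refine ⟨hΦs, ?_⟩
      rw [Fintype.card_prod, ZMod.card, Fintype.card_fin, sq]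
    refine ⟨e₀, ω, fun j => inner ℂ (e₀ j) (x i₀), (Equiv.ofBijective Φ hΦb).symm, hb,
      fun i => ?_⟩
    set q := (Equiv.ofBijective Φ hΦb).symm i with hq
    have hqi : Φ q = i := (Equiv.ofBijective Φ hΦb).apply_symm_apply i
    set s := q.2.val with hs
    set t := q.1.val with ht
    have hU : Ind x (A ^ s * B ^ t) ((a ^ s * b ^ t : G) : Equiv.Perm (Fin (d ^ 2))) :=
      (Pool.Agent.Y387.RU.ind_pow hA s).mul (Pool.Agent.Y387.RU.ind_pow hB t)
    obtain ⟨c, hc⟩ := hU i₀
    have hqi' : ((a ^ s * b ^ t : G) : Equiv.Perm (Fin (d ^ 2))) i₀ = i := hqi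
    rw [hqi'] at hc
    have hcn := ind_norm h hc
    have hc0 : c ≠ 0 := by
      rintro rfl
      simp at hcn
    have hBt : ∀ (t : ℕ) (j : ZMod d), (B ^ t) (e₀ j) = m ^ t • e₀ (j + t) := by
      intro t
      induction t with
      | zero => intro j; simp
      | succ t ih =>
        intro j
        rw [pow_succ]
        change (B ^ t) (B (e₀ j)) = _
        rw [hBe, map_smul, ih, smul_smul, pow_succ, mul_comm m, Nat.cast_succ, add_right_comm,
          add_assoc j]
    have hAs : ∀ (s : ℕ) (j : ZMod d), (A ^ s) (e₀ j) = (l * ω ^ j.val) ^ s • e₀ j := by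
      intro s
      induction s with
      | zero => intro j; simp
      | succ s ih =>
        intro j
        rw [pow_succ]
        change (A ^ s) (A (e₀ j)) = _
        rw [hAe, map_smul, ih, smul_smul, pow_succ, mul_comm]
    have hsum : (A ^ s * B ^ t) (x i₀) = (m ^ t * l ^ s) • ∑ j,
        (ω ^ (s * j.val) * inner ℂ (e₀ (j - q.1)) (x i₀)) • e₀ j := by
      change (A ^ s) ((B ^ t) (x i₀)) = _
      rw [← e₀.sum_repr' (x i₀), map_sum, map_sum, Finset.smul_sum]
      have ht' : ((t : ℕ) : ZMod d) = q.1 := ZMod.natCast_zmod_val q.1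
      rw [← Equiv.sum_comp (Equiv.subRight q.1)]
      refine Finset.sum_congr rfl fun j _ => ?_
      rw [e₀.sum_repr' (x i₀), Equiv.subRight_apply, map_smul, hBt, ht', sub_add_cancel, map_smul,
        map_smul, hAs, smul_smul, smul_smul, smul_smul]
      congr 1
      rw [mul_pow, ← pow_mul, mul_comm j.val s]
      ring
    refine ⟨c⁻¹ * (m ^ t * l ^ s), ?_, ?_⟩
    · rw [norm_mul, norm_mul, norm_inv, norm_pow, norm_pow, hcn, hm, hl]
      simp
    · rw [mul_smul, ← hsum, hc, smul_smul, inv_mul_cancel₀ hc0, one_smul]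

/-- **The global theorem.** -/
theorem global [NeZero d] (hd4 : 4 ≤ d) (hsq : Squarefree d) (h : IsEtf d x)
    {G : Subgroup (Equiv.Perm (Fin (d ^ 2)))} (hG : SymG x G)
    (htr : ∀ i j, ∃ π ∈ G, π i = j) [Group.IsNilpotent G] :
    Nat.card G = d ^ 2 ∧ Nonempty (G ≃* Multiplicative (ZMod d × ZMod d)) ∧ IsWH x := by
  have hcard := card_group hd4 hsq h hG htr
  obtain ⟨a, ha, hac⟩ := exists_order (G := G) hsq (fun p _ hpd => by
    rw [hcard]
    exact hpd.trans (dvd_pow_self d (by norm_num)))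
  exact ⟨hcard, structure_of (by omega) h hG htr hcard ha hac⟩

end Pool.Agent.X159.Nil
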