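import Pool.Agent.X159.Nil.Local

set_option autoImplicit false

/-! Orders of the Sylow subgroups. -/

namespace Pool.Agent.X159.Nil

open Pool.Agent.Y387.SF

variable {d : ℕ} {x : Fin (d ^ 2) → VV d}

/-- a central element whose character has the prime order `p` -/
theorem central_data (h : IsEtf d x) (hd : 1 ≤ d) {G : Subgroup (Equiv.Perm (Fin (d ^ 2)))}
    (hG : SymG x G) (htr : ∀ i j, ∃ π ∈ G, π i = j) {p : ℕ} (hp : p.Prime) {z : G}
    (hz1 : z ≠ 1) (hzp : z ^ p = 1) (hzc : ∀ y, z * y = y * z) :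
    ∃ (A : VV d ≃ₗᵢ[ℂ] VV d) (χ : G →* ℂ) (g : G), Ind x A (z : Equiv.Perm (Fin (d ^ 2))) ∧
      A ^ p = 1 ∧ IsChi x A χ ∧ IsPrimitiveRoot (χ g) p := by
  obtain ⟨A', hA'⟩ := hG z z.2
  obtain ⟨A, hA, hAp⟩ := normalise h hd hA' hp.pos (congrArg Subtype.val hzp)
  obtain ⟨χ, hχ⟩ := exists_chi h hd hG hA (fun y hy => congrArg Subtype.val (hzc ⟨y, hy⟩))
  obtain ⟨g, hg⟩ := chi_nontrivial h hd hG htr hA (fun h0 => hz1 (Subtype.ext h0)) hχ
  refine ⟨A, χ, g, hA, hAp, hχ, ?_⟩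
  have h1 : χ g ^ p = 1 := chi_pow h hd hG hA hχ (congrArg Subtype.val hzp) g
  have : Fact p.Prime := ⟨hp⟩
  have h2 := orderOf_eq_prime h1 hg
  rw [← h2]
  exact IsPrimitiveRoot.orderOf _

/-- every prime dividing the order divides `d` -/
theorem prime_dvd (h : IsEtf d x) (hd : 1 ≤ d) {G : Subgroup (Equiv.Perm (Fin (d ^ 2)))}
    (hG : SymG x G) (htr : ∀ i j, ∃ π ∈ G, π i = j) [Group.IsNilpotent G] {p : ℕ}
    (hp : p.Prime) (hpG : p ∣ Nat.card G) : p ∣ d := by
  have : Fact p.Prime := ⟨hp⟩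
  obtain ⟨P⟩ : Nonempty (Sylow p G) := inferInstance
  have hPn : (P : Subgroup G).Normal := inferInstance
  have hPne : (P : Subgroup G) ≠ ⊥ := P.ne_bot_of_dvd_card hpG
  obtain ⟨z, -, hz1, hzp, hzc⟩ := exists_central_prime (P : Subgroup G) P.isPGroup' hPne
  obtain ⟨A, χ, g, -, -, hχ, hg⟩ := central_data h hd hG htr hp hz1 hzp hzc
  exact hg.dvd_of_pow_eq_one _ (chi_det hG hχ g)

/-- **The order of a Sylow subgroup.** -/
theorem sylow_card (hd4 : 4 ≤ d) (h : IsEtf d x) {G : Subgroup (Equiv.Perm (Fin (d ^ 2)))}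
    (hG : SymG x G) (htr : ∀ i j, ∃ π ∈ G, π i = j) [Group.IsNilpotent G] {p : ℕ}
    [hp : Fact p.Prime] (hpd : p ∣ d) (hpd2 : ¬ p ^ 2 ∣ d) (P : Sylow p G) :
    Nat.card P = p ^ 2 := by
  classical
  have hd : 1 ≤ d := by omega
  have hPn : (P : Subgroup G).Normal := inferInstance
  have hpre : MulAction.IsPretransitive G (Fin (d ^ 2)) := by
    constructor
    intro i j
    obtain ⟨π, hπ, hij⟩ := htr i j
    exact ⟨⟨π, hπ⟩, hij⟩
  have hdG : d ^ 2 ∣ Nat.card G := by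
    have h1 := Pool.Agent.Y387.RU.card_dvd hpre ⟨0, by positivity⟩
    rwa [Fintype.card_fin] at h1
  have hp2 : p ^ 2 ∣ Nat.card P :=
    P.pow_dvd_card_of_pow_dvd_card ((pow_dvd_pow_of_dvd hpd 2).trans hdG)
  have hPne : (P : Subgroup G) ≠ ⊥ :=
    P.ne_bot_of_dvd_card ((hpd.trans (dvd_pow_self d (by norm_num))).trans hdG)
  obtain ⟨z, hzP, hz1, hzp, hzc⟩ := exists_central_prime (P : Subgroup G) P.isPGroup' hPne
  obtain ⟨A, χ, g, hA, hAp, hχ, hg⟩ := central_data h hd hG htr hp.out hz1 hzp hzc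
  have hχp : ∀ y, χ y ^ p = 1 := fun w =>
    chi_pow h hd hG hA hχ (congrArg Subtype.val hzp) w
  -- the kernel
  set χ' : G →* ℂˣ := χ.toHomUnits with hχ'
  have hmem : ∀ y, y ∈ χ'.ker ↔ χ y = 1 := by
    intro y
    rw [MonoidHom.mem_ker, Units.ext_iff, hχ', MonoidHom.coe_toHomUnits, Units.val_one]
  have hidx : χ'.ker.index ≤ p := by
    rw [Subgroup.index_ker]
    have h1 : χ'.range ≤ rootsOfUnity p ℂ := by
      rintro _ ⟨y, rfl⟩
      rw [mem_rootsOfUnity, Units.ext_iff, Units.val_pow_eq_pow_val, hχ',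
        MonoidHom.coe_toHomUnits, hχp, Units.val_one]
    have : NeZero p := ⟨hp.out.ne_zero⟩
    have h2 := Subgroup.card_le_of_le h1
    exact h2.trans (card_rootsOfUnity ℂ p)
  set N : Subgroup G := χ'.ker ⊓ P with hN
  have hNn : N.Normal := inferInstance
  have hcard : Nat.card P ≤ p * Nat.card N := by
    have h1 : N.relIndex P ≤ p := by
      rw [hN, Subgroup.inf_relIndex_right]
      exact (Nat.le_of_dvd (Nat.pos_of_ne_zero Subgroup.index_ne_zero_of_finite)
        (Subgroup.relIndex_dvd_index_of_normal _ _)).trans hidx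
    have h2 := Subgroup.relIndex_mul_relIndex ⊥ N P bot_le inf_le_right
    rw [Subgroup.relIndex_bot_left, Subgroup.relIndex_bot_left] at h2
    calc Nat.card P = Nat.card N * N.relIndex P := h2.symm
      _ ≤ Nat.card N * p := Nat.mul_le_mul_left _ h1
      _ = p * Nat.card N := mul_comm _ _
  -- either `N` is small or there is a second element
  set Z : Subgroup G := Subgroup.zpowers z with hZ
  have hZn : Z.Normal := by
    constructor
    intro w hw y
    rw [hZ, Subgroup.mem_zpowers_iff] at hw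
    obtain ⟨k, rfl⟩ := hw
    have h1 : Commute z y := hzc y
    rw [← (h1.zpow_left k).eq, mul_inv_cancel_right]
    exact Subgroup.zpow_mem_zpowers z k
  by_cases hNZ : N ≤ Z
  · have h1 : Nat.card N ≤ p := by
      refine (Subgroup.card_le_of_le hNZ).trans ?_
      rw [hZ, Nat.card_zpowers, orderOf_eq_prime hzp hz1]
    have h2 : Nat.card P ≤ p ^ 2 := by
      refine (hcard.trans (Nat.mul_le_mul_left _ h1)).trans (le_of_eq ?_)
      ring
    exact le_antisymm h2 (Nat.le_of_dvd Nat.card_pos hp2)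
  · exfalso
    have hNb : N.map (QuotientGroup.mk' Z) ≠ ⊥ := by
      intro h0
      apply hNZ
      intro y hy
      have h1 : QuotientGroup.mk' Z y ∈ N.map (QuotientGroup.mk' Z) :=
        Subgroup.mem_map_of_mem _ hy
      rw [h0, Subgroup.mem_bot] at h1
      exact (QuotientGroup.eq_one_iff y).1 h1
    have hNbn : (N.map (QuotientGroup.mk' Z)).Normal :=
      hNn.map _ (QuotientGroup.mk'_surjective Z)
    obtain ⟨q, hq, hq1, hqc⟩ := Pool.Agent.Y387.RU.exists_central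
      (N.map (QuotientGroup.mk' Z)) hNb
    obtain ⟨y, hy, rfl⟩ := hq
    have hyN : y ∈ χ'.ker ∧ y ∈ (P : Subgroup G) := Subgroup.mem_inf.1 hy
    have hyZ : y ∉ Z := fun h0 => hq1 ((QuotientGroup.eq_one_iff y).2 h0)
    obtain ⟨a, ha⟩ := P.isPGroup' ⟨y, hyN.2⟩
    refine no_second hd4 h hG htr hp.out hpd hpd2 hzp hzc hA hAp hχ hg y ((hmem y).1 hyN.1)
      (congrArg Subtype.val ha) (fun m h0 => hyZ ?_) (fun n => ?_)
    · rw [h0]
      exact Subgroup.npow_mem_zpowers z m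
    · have h1 := hqc (QuotientGroup.mk' Z n)
      rw [← map_mul, ← map_mul] at h1
      have h2 : (y * n)⁻¹ * (n * y) ∈ Z := QuotientGroup.eq.1 h1
      rw [hZ, ← mem_powers_iff_mem_zpowers] at h2
      obtain ⟨c, hc⟩ := h2
      refine ⟨c, ?_⟩
      have h3 : Commute (z ^ c) (y * n) := (show Commute z (y * n) from hzc _).pow_left c
      rw [h3.eq]
      have hc' : z ^ c = (y * n)⁻¹ * (n * y) := hc
      rw [hc', mul_inv_cancel_left]

end Pool.Agent.X159.Nil
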